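import Pool.Agent.N842.TR.Law
import Pool.Agent.N842.TP.Tot

/-!
# Euler products near the edge of absolute convergence
-/

set_option autoImplicit false

namespace Pool.Agent.N842.TR

open Finset NumberField IsDedekindDomain Filter Topology
open Pool.Agent.N842.SQ
open Pool.Agent.N842.TP
open Pool.Agent.N842.TQ
open Pool.Agent.N842.HS (hv VT mem_VT res_char prime_above norm_card absNorm_hv hom_finite hom_card cf sum_deg1 factNth)
open Pool.Agent.H921R2.TatePole (nm_ne_zero two_le_nm nm_summable)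
open Pool.Agent.TH894.NF (pr pr_prime)

section
variable {K : Type} [Field K] [NumberField K]

/-- the logarithms of the Euler factors -/
noncomputable def dz (b : HeightOneSpectrum (𝓞 K) → ℕ → ℝ) (s : ℝ) (v : HeightOneSpectrum (𝓞 K)) : ℝ := ∑' k : ℕ, b v (k + 1) * term v k s

lemma dz_term {b : HeightOneSpectrum (𝓞 K) → ℕ → ℝ} {B : ℝ} (hb : ∀ v k, |b v (k + 1)| ≤ B) (v : HeightOneSpectrum (𝓞 K)) {s : ℝ} (hs : 1 ≤ s) :
    Summable (fun k : ℕ => b v (k + 1) * term v k s) := by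
  refine Summable.of_norm_bounded (g := fun k => B * term v k s) ((term_hasSum v hs).summable.mul_left _) fun k => ?_
  rw [norm_mul, Real.norm_eq_abs, Real.norm_eq_abs, abs_of_nonneg (term_nonneg v k s)]
  exact mul_le_mul_of_nonneg_right (hb v k) (term_nonneg v k s)

lemma dz_abs {b : HeightOneSpectrum (𝓞 K) → ℕ → ℝ} {B : ℝ} (hb : ∀ v k, |b v (k + 1)| ≤ B) (v : HeightOneSpectrum (𝓞 K)) {s : ℝ} (hs : 1 ≤ s) :
    |dz b s v| ≤ B * (-Real.log (1 - ((Ideal.absNorm v.asIdeal : ℕ) : ℝ) ^ (-s))) := by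
  unfold dz
  rw [← (term_hasSum v hs).tsum_eq, ← tsum_mul_left, ← Real.norm_eq_abs]
  refine tsum_of_norm_bounded (((term_hasSum v hs).summable.mul_left B).hasSum) fun k => ?_
  rw [norm_mul, Real.norm_eq_abs, Real.norm_eq_abs, abs_of_nonneg (term_nonneg v k s)]
  exact mul_le_mul_of_nonneg_right (hb v k) (term_nonneg v k s)

lemma dz_summable {b : HeightOneSpectrum (𝓞 K) → ℕ → ℝ} {B : ℝ} (hb : ∀ v k, |b v (k + 1)| ≤ B) {s : ℝ} (hs : 1 < s) :
    Summable (fun v : HeightOneSpectrum (𝓞 K) => dz b s v) := by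
  refine Summable.of_norm_bounded (g := fun v : HeightOneSpectrum (𝓞 K) => B * (-Real.log (1 - ((Ideal.absNorm v.asIdeal : ℕ) : ℝ) ^ (-s))))
    ((logZ_hasSum hs).summable.mul_left _) fun v => ?_
  rw [Real.norm_eq_abs]
  exact dz_abs hb v hs.le

/-- the higher terms -/
lemma dz_diff {b : HeightOneSpectrum (𝓞 K) → ℕ → ℝ} {B : ℝ} (hB : 0 ≤ B) (hb : ∀ v k, |b v (k + 1)| ≤ B) (v : HeightOneSpectrum (𝓞 K))
    {s s' : ℝ} (hs : 1 ≤ s) (hs' : 1 ≤ s') :
    |dz b s v - dz b s' v - b v 1 * (((Ideal.absNorm v.asIdeal : ℕ) : ℝ) ^ (-s) - ((Ideal.absNorm v.asIdeal : ℕ) : ℝ) ^ (-s'))| ≤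
      4 * B * |s - s'| * ((Ideal.absNorm v.asIdeal : ℕ) : ℝ) ^ (-(3 / 2 : ℝ)) := by
  obtain ⟨q, hq⟩ : ∃ q : ℝ, q = ((Ideal.absNorm v.asIdeal : ℕ) : ℝ) := ⟨_, rfl⟩
  have hq2 : 2 ≤ q := by rw [hq]; exact nm2 v
  have hq0 : 0 < q := by linarith
  have h1 : dz b s v - dz b s' v - b v 1 * (q ^ (-s) - q ^ (-s')) =
      ∑' k : ℕ, b v (k + 2) * (term v (k + 1) s - term v (k + 1) s') := by
    have h2 : dz b s v - dz b s' v = ∑' k : ℕ, b v (k + 1) * (term v k s - term v k s') := by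
      unfold dz
      rw [← Summable.tsum_sub (dz_term hb v hs) (dz_term hb v hs')]
      exact tsum_congr fun k => by ring
    have h3 : Summable (fun k : ℕ => b v (k + 1) * (term v k s - term v k s')) := by
      have := (dz_term hb v hs).sub (dz_term hb v hs')
      refine this.congr fun k => ?_
      ring
    rw [h2, h3.tsum_eq_zero_add]
    have h4 : term v 0 s = q ^ (-s) := by
      unfold term
      rw [← hq]
      simp
    have h5 : term v 0 s' = q ^ (-s') := by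
      unfold term
      rw [← hq]
      simp
    rw [h4, h5]
    ring
  rw [← hq, h1]
  have hlog : Real.log q ≤ 2 * q ^ (1 / 2 : ℝ) := by
    have h2 : 0 < q ^ (1 / 2 : ℝ) := by positivity
    have h3 := Real.log_le_sub_one_of_pos h2
    rw [Real.log_rpow hq0] at h3
    linarith
  have hlog0 : 0 ≤ Real.log q := Real.log_nonneg (by linarith)
  have hterm : ∀ k : ℕ, |term v (k + 1) s - term v (k + 1) s'| ≤ |s - s'| * (Real.log q * q ^ (-(2 : ℝ))) * (1 / 2) ^ k := by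
    intro k
    unfold term
    rw [← hq]
    push_cast
    rw [← sub_div, abs_div, abs_of_pos (by positivity : (0 : ℝ) < (k : ℝ) + 1 + 1), div_le_iff₀ (by positivity)]
    have e1 : ∀ s : ℝ, q ^ (-(((k : ℝ) + 1 + 1) * s)) = (q ^ ((k : ℝ) + 1 + 1)) ^ (-s) := by
      intro s
      rw [← Real.rpow_mul hq0.le]
      congr 1
      ring
    rw [e1, e1]
    have hx1 : 1 ≤ q ^ ((k : ℝ) + 1 + 1) := Real.one_le_rpow (by linarith) (by positivity)
    have h2 := diff_rpow (x := q ^ ((k : ℝ) + 1 + 1)) (σ := 1) (s := s) (s' := s') hx1 hs hs'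
    refine h2.trans ?_
    rw [Real.log_rpow hq0, ← Real.rpow_mul hq0.le]
    have e2 : q ^ (((k : ℝ) + 1 + 1) * (-1)) = q ^ (-(2 : ℝ)) * q ^ (-(k : ℝ)) := by
      rw [← Real.rpow_add hq0]
      congr 1
      ring
    have e3 : q ^ (-(k : ℝ)) ≤ (1 / 2) ^ k := by
      rw [Real.rpow_neg hq0.le, Real.rpow_natCast, one_div, inv_pow]
      exact inv_anti₀ (by positivity) (pow_le_pow_left₀ (by norm_num) hq2 k)
    rw [e2]
    have e4 : 0 ≤ |s - s'| * (((k : ℝ) + 1 + 1) * Real.log q) * q ^ (-(2 : ℝ)) := by positivity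
    calc |s - s'| * (((k : ℝ) + 1 + 1) * Real.log q * (q ^ (-(2 : ℝ)) * q ^ (-(k : ℝ)))) =
        |s - s'| * (((k : ℝ) + 1 + 1) * Real.log q) * q ^ (-(2 : ℝ)) * q ^ (-(k : ℝ)) := by ring
      _ ≤ |s - s'| * (((k : ℝ) + 1 + 1) * Real.log q) * q ^ (-(2 : ℝ)) * (1 / 2) ^ k := mul_le_mul_of_nonneg_left e3 e4
      _ = _ := by ring
  have hgeo : HasSum (fun k : ℕ => B * (|s - s'| * (Real.log q * q ^ (-(2 : ℝ)))) * (1 / 2 : ℝ) ^ k)
      (B * (|s - s'| * (Real.log q * q ^ (-(2 : ℝ)))) * 2) := by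
    apply HasSum.mul_left
    exact hasSum_geometric_two
  rw [← Real.norm_eq_abs]
  refine (tsum_of_norm_bounded hgeo fun k => ?_).trans ?_
  · rw [norm_mul, Real.norm_eq_abs, Real.norm_eq_abs]
    have h3 := mul_le_mul (hb v (k + 1)) (hterm k) (abs_nonneg _) hB
    refine h3.trans (le_of_eq ?_)
    ring
  · have h4 : Real.log q * q ^ (-(2 : ℝ)) ≤ 2 * q ^ (-(3 / 2 : ℝ)) := by
      have h5 : q ^ (-(3 / 2 : ℝ)) = q ^ (1 / 2 : ℝ) * q ^ (-(2 : ℝ)) := by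
        rw [← Real.rpow_add hq0]
        norm_num
      rw [h5]
      have h6 : 0 < q ^ (-(2 : ℝ)) := by positivity
      nlinarith
    have h7 : 0 ≤ B * |s - s'| * 2 := by positivity
    calc B * (|s - s'| * (Real.log q * q ^ (-(2 : ℝ)))) * 2 = B * |s - s'| * 2 * (Real.log q * q ^ (-(2 : ℝ))) := by ring
      _ ≤ B * |s - s'| * 2 * (2 * q ^ (-(3 / 2 : ℝ))) := mul_le_mul_of_nonneg_left h4 h7
      _ = _ := by ring

/-- the sum over the prime ideals of degree one -/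
lemma deg1_Eb (b : HeightOneSpectrum (𝓞 K) → ℕ → ℝ) (s s' : ℝ) (T : ℕ) :
    ∑ v ∈ (VT K T).filter (fun v => (Ideal.absNorm v.asIdeal).Prime), b v 1 *
      (((Ideal.absNorm v.asIdeal : ℕ) : ℝ) ^ (-s) - ((Ideal.absNorm v.asIdeal : ℕ) : ℝ) ^ (-s')) =
    ∑ k ∈ range (Nat.primeCounting T), Eb (fun v => b v 1) k * ((pr k : ℝ) ^ (-s) - (pr k : ℝ) ^ (-s')) := by
  rw [sum_deg1 T (fun v => b v 1 * (((Ideal.absNorm v.asIdeal : ℕ) : ℝ) ^ (-s) - ((Ideal.absNorm v.asIdeal : ℕ) : ℝ) ^ (-s')))]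
  refine sum_congr rfl fun k _ => ?_
  have := tup_fin K k
  have hF : Fintype ((e : Fin 1) → (𝓞 K →+* ZMod (Nat.nth Nat.Prime (k + e)))) := Fintype.ofFinite _
  unfold Eb
  rw [finsum_eq_sum_of_fintype, finsum_eq_sum_of_fintype, sum_mul]
  refine sum_congr rfl fun φ _ => ?_
  have h1 : Ideal.absNorm (hv (φ 0)).asIdeal = pr k := absNorm_hv (φ 0)
  rw [h1]

/-- **the differences of the logarithms** -/
theorem totalz (K : Type) [Field K] [NumberField K] (B : ℝ) (hB : 0 ≤ B)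
    {β : ℝ} (hβ0 : 0 < β) (hβ1 : β < 1) : ∃ C₂ : ℝ, 0 ≤ C₂ ∧ ∀ (b : HeightOneSpectrum (𝓞 K) → ℕ → ℝ), (∀ v k, |b v (k + 1)| ≤ B) →
    ∀ C₁ : ℝ, 0 ≤ C₁ → ∀ y x : ℕ, 3 ≤ y → y ≤ x →
    (∀ u, y ≤ u → u ≤ x → |∑ j ∈ range u, Eb (fun v => b v 1) j| ≤ C₁ * (u : ℝ) ^ β) →
    ∀ s s' : ℝ, 1 < s → s ≤ 2 → 1 < s' → s' ≤ 2 → 1 ≤ (s - 1) * Real.log x → 1 ≤ (s' - 1) * Real.log x →
      |∑' v : HeightOneSpectrum (𝓞 K), dz b s v - ∑' v : HeightOneSpectrum (𝓞 K), dz b s' v| ≤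
        C₂ * (|s - s'| * Real.log y + C₁ * (y : ℝ) ^ (β - 1) + ((x : ℝ) ^ (1 - s) + (x : ℝ) ^ (1 - s'))) := by
  obtain ⟨nK, hnK⟩ := hom_card (𝓞 K)
  obtain ⟨C, hC, hmain⟩ := main_diff hβ0 hβ1
  obtain ⟨Ch, hCh, hhigh⟩ := high_sum K
  obtain ⟨W, hW⟩ : ∃ W : ℝ, W = ∑' v : HeightOneSpectrum (𝓞 K), ((Ideal.absNorm v.asIdeal : ℕ) : ℝ) ^ (-(3 / 2 : ℝ)) := ⟨_, rfl⟩
  have hWs : Summable (fun v : HeightOneSpectrum (𝓞 K) => ((Ideal.absNorm v.asIdeal : ℕ) : ℝ) ^ (-(3 / 2 : ℝ))) := nm_summable (by norm_num)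
  have hW0 : 0 ≤ W := by
    rw [hW]
    exact tsum_nonneg fun v => by positivity
  refine ⟨C * (nK * B + 1) + 4 * B * W + 4 * B * Ch, by positivity, fun b hb C₁ hC₁ y x hy hyx hS s s' hs hs2 hs' hs2' hsx hsx' => ?_⟩
  have hy0 : (0 : ℝ) < y := by exact_mod_cast (by omega : 0 < y)
  have hx0 : (0 : ℝ) < x := by exact_mod_cast (by omega : 0 < x)
  have hly : 1 ≤ Real.log y := by
    have h3 : (Real.exp 1) ≤ y := by
      have := Real.exp_one_lt_d9
      have h4 : (3 : ℝ) ≤ y := by exact_mod_cast hy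
      linarith
    exact (Real.le_log_iff_exp_le hy0).2 h3
  obtain ⟨G, hG⟩ : ∃ G : HeightOneSpectrum (𝓞 K) → ℝ, G = fun v => b v 1 *
      (((Ideal.absNorm v.asIdeal : ℕ) : ℝ) ^ (-s) - ((Ideal.absNorm v.asIdeal : ℕ) : ℝ) ^ (-s')) := ⟨_, rfl⟩
  -- the finite sums
  have hfin : ∀ T : ℕ, |∑ v ∈ VT K T, dz b s v - ∑ v ∈ VT K T, dz b s' v| ≤
      (C * (nK * B + 1) + 4 * B * W + 4 * B * Ch) * (|s - s'| * Real.log y + C₁ * (y : ℝ) ^ (β - 1) + ((x : ℝ) ^ (1 - s) + (x : ℝ) ^ (1 - s'))) := by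
    intro T
    have e1 : ∑ v ∈ VT K T, dz b s v - ∑ v ∈ VT K T, dz b s' v = ∑ v ∈ VT K T, (dz b s v - dz b s' v - G v) +
        (∑ v ∈ (VT K T).filter (fun v => (Ideal.absNorm v.asIdeal).Prime), G v + ∑ v ∈ (VT K T).filter (fun v => ¬ (Ideal.absNorm v.asIdeal).Prime), G v) := by
      rw [sum_filter_add_sum_filter_not, ← sum_add_distrib, ← sum_sub_distrib]
      exact sum_congr rfl fun v _ => by ring
    rw [e1]
    have b1 : |∑ v ∈ VT K T, (dz b s v - dz b s' v - G v)| ≤ 4 * B * |s - s'| * W := by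
      refine (abs_sum_le_sum_abs _ _).trans ?_
      have h1 : ∀ v ∈ VT K T, |dz b s v - dz b s' v - G v| ≤ 4 * B * |s - s'| * ((Ideal.absNorm v.asIdeal : ℕ) : ℝ) ^ (-(3 / 2 : ℝ)) := by
        intro v _
        rw [hG]
        exact dz_diff hB hb v hs.le hs'.le
      refine (sum_le_sum h1).trans ?_
      rw [← mul_sum, hW]
      exact mul_le_mul_of_nonneg_left (hWs.sum_le_tsum _ fun m _ => by positivity) (by positivity)
    have b2 : |∑ v ∈ (VT K T).filter (fun v => ¬ (Ideal.absNorm v.asIdeal).Prime), G v| ≤ 4 * B * |s - s'| * Ch := by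
      refine (abs_sum_le_sum_abs _ _).trans ?_
      have h1 : ∀ v ∈ (VT K T).filter (fun v => ¬ (Ideal.absNorm v.asIdeal).Prime), |G v| ≤
          4 * B * |s - s'| * ((Ideal.absNorm v.asIdeal : ℕ) : ℝ) ^ (-(3 / 4 : ℝ)) := by
        intro v _
        obtain ⟨q, hq⟩ : ∃ q : ℝ, q = ((Ideal.absNorm v.asIdeal : ℕ) : ℝ) := ⟨_, rfl⟩
        have hq2 : 2 ≤ q := by rw [hq]; exact nm2 v
        have hq0 : 0 < q := by linarith
        rw [hG]
        show |b v 1 * (((Ideal.absNorm v.asIdeal : ℕ) : ℝ) ^ (-s) - ((Ideal.absNorm v.asIdeal : ℕ) : ℝ) ^ (-s'))| ≤ _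
        rw [← hq, abs_mul]
        have h2 : |b v 1| ≤ B := hb v 0
        have h3 := diff_rpow (x := q) (σ := 1) (s := s) (s' := s') (by linarith) hs.le hs'.le
        have hlog : Real.log q ≤ 4 * q ^ (1 / 4 : ℝ) := by
          have h2 : 0 < q ^ (1 / 4 : ℝ) := by positivity
          have h3 := Real.log_le_sub_one_of_pos h2
          rw [Real.log_rpow hq0] at h3
          linarith
        have h4 : Real.log q * q ^ (-1 : ℝ) ≤ 4 * q ^ (-(3 / 4 : ℝ)) := by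
          have h5 : q ^ (-(3 / 4 : ℝ)) = q ^ (1 / 4 : ℝ) * q ^ (-1 : ℝ) := by
            rw [← Real.rpow_add hq0]
            norm_num
          rw [h5]
          have h6 : 0 < q ^ (-1 : ℝ) := by positivity
          nlinarith
        have h5 : |q ^ (-s) - q ^ (-s')| ≤ |s - s'| * (4 * q ^ (-(3 / 4 : ℝ))) := by
          refine h3.trans ?_
          exact mul_le_mul_of_nonneg_left h4 (abs_nonneg _)
        refine (mul_le_mul h2 h5 (abs_nonneg _) hB).trans (le_of_eq ?_)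
        ring
      refine (sum_le_sum h1).trans ?_
      rw [← mul_sum]
      exact mul_le_mul_of_nonneg_left (hhigh T) (by positivity)
    have b3 : |∑ v ∈ (VT K T).filter (fun v => (Ideal.absNorm v.asIdeal).Prime), G v| ≤
        C * (nK * B * (|s - s'| * Real.log y) + C₁ * (y : ℝ) ^ (β - 1) + nK * B * ((x : ℝ) ^ (1 - s) + (x : ℝ) ^ (1 - s'))) := by
      rw [hG, deg1_Eb b s s' T]
      exact hmain (fun j => Eb (fun v => b v 1) j) (nK * B) C₁ hC₁ (fun j => Eb_le hnK hB (fun v => hb v 0) j) y x hy hyx hS s s' hs hs2 hs' hs2' hsx hsx' _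
    have hB' : 0 ≤ (nK : ℝ) * B := by positivity
    have hq1 : 0 ≤ |s - s'| := abs_nonneg _
    have hq2 : 0 ≤ |s - s'| * Real.log y := by positivity
    have hq3 : |s - s'| ≤ |s - s'| * Real.log y := le_mul_of_one_le_right hq1 hly
    have hq4 : 0 ≤ C₁ * (y : ℝ) ^ (β - 1) := by positivity
    have hq5 : 0 ≤ (x : ℝ) ^ (1 - s) + (x : ℝ) ^ (1 - s') := by positivity
    obtain ⟨a1, ha1⟩ : ∃ a, a = |s - s'| * Real.log y := ⟨_, rfl⟩
    obtain ⟨a2, ha2⟩ : ∃ a, a = C₁ * (y : ℝ) ^ (β - 1) := ⟨_, rfl⟩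
    obtain ⟨a3, ha3⟩ : ∃ a, a = (x : ℝ) ^ (1 - s) + (x : ℝ) ^ (1 - s') := ⟨_, rfl⟩
    obtain ⟨B', hB''⟩ : ∃ B', B' = (nK : ℝ) * B := ⟨_, rfl⟩
    rw [← hB''] at hB'
    rw [← ha1, ← ha2, ← ha3, ← hB''] at b3
    rw [← ha1] at hq2 hq3
    rw [← ha2] at hq4
    rw [← ha3] at hq5
    rw [← ha1, ← ha2, ← ha3, ← hB'']
    have c1 : 4 * B * |s - s'| * W ≤ 4 * B * W * (a1 + a2 + a3) := by
      have h1 : |s - s'| ≤ a1 + a2 + a3 := by linarith
      have h2 : 0 ≤ 4 * B * W := by positivity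
      have h3 := mul_le_mul_of_nonneg_left h1 h2
      linarith
    have c2 : 4 * B * |s - s'| * Ch ≤ 4 * B * Ch * (a1 + a2 + a3) := by
      have h1 : |s - s'| ≤ a1 + a2 + a3 := by linarith
      have h2 : 0 ≤ 4 * B * Ch := by positivity
      have h3 := mul_le_mul_of_nonneg_left h1 h2
      linarith
    have c3 : C * (B' * a1 + a2 + B' * a3) ≤ C * (B' + 1) * (a1 + a2 + a3) := by
      rw [mul_assoc]
      apply mul_le_mul_of_nonneg_left _ hC
      nlinarith [mul_nonneg hB' hq4]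
    refine (abs_add_le _ _).trans ?_
    have h1 := abs_add_le (∑ v ∈ (VT K T).filter (fun v => (Ideal.absNorm v.asIdeal).Prime), G v) (∑ v ∈ (VT K T).filter (fun v => ¬ (Ideal.absNorm v.asIdeal).Prime), G v)
    calc _ ≤ 4 * B * W * (a1 + a2 + a3) + (C * (B' + 1) * (a1 + a2 + a3) + 4 * B * Ch * (a1 + a2 + a3)) := by
          linarith
      _ = _ := by ring
  have hlim : Tendsto (fun T : ℕ => |∑ v ∈ VT K T, dz b s v - ∑ v ∈ VT K T, dz b s' v|) atTop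
      (𝓝 |∑' v : HeightOneSpectrum (𝓞 K), dz b s v - ∑' v : HeightOneSpectrum (𝓞 K), dz b s' v|) := by
    apply Tendsto.abs
    exact ((dz_summable hb hs).hasSum.comp (VT_tendsto K)).sub ((dz_summable hb hs').hasSum.comp (VT_tendsto K))
  exact le_of_tendsto hlim (Eventually.of_forall hfin)

end

end Pool.Agent.N842.TR
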