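import Pool.Agent.N842.TR.Abs
import Pool.Agent.N842.TP.Fin

/-!
# The L-functions of the products of almost all products of powers of curves with arbitrary varieties
-/

set_option autoImplicit false

namespace Pool.Agent.N842.TR

open Finset NumberField IsDedekindDomain Filter Topology
open Pool.Agent.N842.SQ
open Pool.Agent.N842.TP
open Pool.Agent.N842.TQ
open Pool.Agent.N842.HS (hv VT mem_VT res_char prime_above norm_card absNorm_hv hom_finite hom_card cf sum_deg1 factNth)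
open Pool.Agent.TH894.NF (pr pr_prime)
open Pool.Agent.Y57.FD (digit exceptions)

attribute [local instance] rsFin exFin

lemma sum_even_odd (g : ℕ → ℝ) (i : ℕ) : ∑ d ∈ range (2 * i + 1), g d = ∑ j ∈ range (i + 1), g (2 * j) + ∑ j ∈ range i, g (2 * j + 1) := by
  induction i with
  | zero => simp
  | succ i ih =>
    have h1 : 2 * (i + 1) + 1 = (2 * i + 1) + 1 + 1 := by ring
    rw [h1, sum_range_succ, sum_range_succ, ih, sum_range_succ (fun j => g (2 * j)) (i + 1), sum_range_succ (fun j => g (2 * j + 1)) i]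
    have h2 : 2 * (i + 1) = 2 * i + 1 + 1 := by ring
    rw [h2]
    ring

section
variable {K : Type} [Field K] [NumberField K] {N : ℕ} (n : Fin N → ℕ)

lemma reindex (l : ℕ) (A : ℕ → ℝ) (i : ℕ) : ∑ e ∈ range (2 * i + 1), rk n l (2 * i - e) * A e =
    ∑ j ∈ range (i + 1), (((Rk n l).coeff j : ℕ) : ℝ) * A (2 * (i - j)) := by
  rw [← sum_range_reflect, Nat.add_sub_cancel]
  have h1 : ∀ d ∈ range (2 * i + 1), rk n l (2 * i - (2 * i - d)) * A (2 * i - d) = rk n l d * A (2 * i - d) := by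
    intro d hd
    rw [Finset.mem_range] at hd
    have : 2 * i - (2 * i - d) = d := by omega
    rw [this]
  rw [sum_congr rfl h1, sum_even_odd]
  have h2 : ∑ j ∈ range i, rk n l (2 * j + 1) * A (2 * i - (2 * j + 1)) = 0 := by
    apply sum_eq_zero
    intro j _
    unfold rk
    rw [if_neg (by rw [Nat.not_even_iff_odd]; exact ⟨j, rfl⟩), zero_mul]
  rw [h2, add_zero]
  refine sum_congr rfl fun j _ => ?_
  unfold rk
  rw [if_pos (even_two_mul j), Nat.mul_div_cancel_left _ (by norm_num)]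
  congr 2
  omega

/-- the traces for the product -/
noncomputable def bV (l : ℕ) {D : ℕ} (c : Fin (N * D) → 𝓞 K) (z : ℕ → HeightOneSpectrum (𝓞 K) → ℕ → ℝ) (i : ℕ) (v : HeightOneSpectrum (𝓞 K)) (k : ℕ) : ℝ :=
  ∑ e ∈ range (2 * i + 1), To n l (2 * i - e) k v c * z e v k

/-- the differences -/
noncomputable def bD (l : ℕ) {D : ℕ} (c : Fin (N * D) → 𝓞 K) (z : ℕ → HeightOneSpectrum (𝓞 K) → ℕ → ℝ) (i : ℕ) (v : HeightOneSpectrum (𝓞 K)) (k : ℕ) : ℝ :=
  ∑ e ∈ range (2 * i + 1), z e v k * (To n l (2 * i - e) k v c - rk n l (2 * i - e))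

/-- a bound -/
noncomputable def BI (l D I : ℕ) : ℝ := ∑ d ∈ range (2 * I + 1), (BD n l D d + BM n l d)

lemma BI_nonneg (l : ℕ) (hl : l.Prime) (D I : ℕ) : 0 ≤ BI n l D I :=
  sum_nonneg fun d _ => add_nonneg (BD_nonneg n l hl D d) (BM_nonneg n l d)

lemma BI_le (l : ℕ) (hl : l.Prime) (D I d : ℕ) (hd : d ≤ 2 * I) : BD n l D d + BM n l d ≤ BI n l D I := by
  unfold BI
  exact single_le_sum (f := fun d => BD n l D d + BM n l d) (fun d _ => add_nonneg (BD_nonneg n l hl D d) (BM_nonneg n l d)) (mem_range.2 (by omega))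

variable (l : ℕ) (hl : l.Prime) {D : ℕ} (hD : Nat.Coprime D l)
include hl hD

lemma bD_le (c : Fin (N * D) → 𝓞 K) (z : ℕ → HeightOneSpectrum (𝓞 K) → ℕ → ℝ) {ρ : ℝ} (hρ : 0 ≤ ρ) (hz : ∀ e v k, |z e v k| ≤ ρ) (I i : ℕ) (hi : i ≤ I)
    (v : HeightOneSpectrum (𝓞 K)) (k : ℕ) : |bD n l c z i v (k + 1)| ≤ (2 * I + 1) * (ρ * BI n l D I) := by
  unfold bD
  have hB := BI_nonneg n l hl D I
  refine (abs_sum_le_sum_abs _ _).trans ((sum_le_sum (g := fun _ => ρ * BI n l D I) fun e he => ?_).trans ?_)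
  · rw [abs_mul]
    apply mul_le_mul (hz e v _) _ (abs_nonneg _) hρ
    refine (abs_sub _ _).trans ((add_le_add (To_le n l hl hD _ (k + 1) (by omega) v c) (rk_abs n l hl _)).trans (BI_le n l hl D I _ (by omega)))
  · rw [sum_const, card_range, nsmul_eq_mul]
    apply mul_le_mul_of_nonneg_right _ (by positivity)
    exact_mod_cast (by omega : 2 * i + 1 ≤ 2 * I + 1)

lemma bV_le (c : Fin (N * D) → 𝓞 K) (z : ℕ → HeightOneSpectrum (𝓞 K) → ℕ → ℝ) {ρ : ℝ} (hρ : 0 ≤ ρ) (hz : ∀ e v k, |z e v k| ≤ ρ) (I i : ℕ) (hi : i ≤ I)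
    (v : HeightOneSpectrum (𝓞 K)) (k : ℕ) : |bV n l c z i v (k + 1)| ≤ (2 * I + 1) * (ρ * BI n l D I) := by
  unfold bV
  have hB := BI_nonneg n l hl D I
  refine (abs_sum_le_sum_abs _ _).trans ((sum_le_sum (g := fun _ => ρ * BI n l D I) fun e he => ?_).trans ?_)
  · rw [abs_mul, mul_comm]
    apply mul_le_mul (hz e v _) _ (abs_nonneg _) hρ
    have h1 := BI_le n l hl D I (2 * i - e) (by omega)
    have h2 := BM_nonneg n l (2 * i - e)
    have h3 := To_le n l hl hD (2 * i - e) (k + 1) (by omega) v c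
    linarith
  · rw [sum_const, card_range, nsmul_eq_mul]
    apply mul_le_mul_of_nonneg_right _ (by positivity)
    exact_mod_cast (by omega : 2 * i + 1 ≤ 2 * I + 1)

/-- **the L-function of the product** -/
lemma L_eq (c : Fin (N * D) → 𝓞 K) (z : ℕ → HeightOneSpectrum (𝓞 K) → ℕ → ℝ) {ρ : ℝ} (hρ : 0 ≤ ρ) (hz : ∀ e v k, |z e v k| ≤ ρ) (i : ℕ) {s : ℝ} (hs : 1 < s) :
    Real.exp (∑' v : HeightOneSpectrum (𝓞 K), dz (bV n l c z i) s v) =
      Real.exp (∑' v : HeightOneSpectrum (𝓞 K), dz (bD n l c z i) s v) *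
        ∏ j ∈ range (i + 1), Real.exp (∑' v : HeightOneSpectrum (𝓞 K), dz (z (2 * (i - j))) s v) ^ (Rk n l).coeff j := by
  have hsV := dz_summable (fun v k => bV_le n l hl hD c z hρ hz i i le_rfl v k) hs
  have hsD := dz_summable (fun v k => bD_le n l hl hD c z hρ hz i i le_rfl v k) hs
  have hsz : ∀ e, Summable (fun v : HeightOneSpectrum (𝓞 K) => dz (z e) s v) := fun e => dz_summable (fun v k => hz e v (k + 1)) hs
  have h1 : ∀ v : HeightOneSpectrum (𝓞 K), dz (bV n l c z i) s v = dz (bD n l c z i) s v + ∑ e ∈ range (2 * i + 1), rk n l (2 * i - e) * dz (z e) s v := by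
    intro v
    have e1 : ∑ e ∈ range (2 * i + 1), rk n l (2 * i - e) * dz (z e) s v =
        ∑' k : ℕ, ∑ e ∈ range (2 * i + 1), rk n l (2 * i - e) * (z e v (k + 1) * term v k s) := by
      rw [Summable.tsum_finsetSum (fun e _ => (dz_term (fun v k => hz e v (k + 1)) v hs.le).mul_left _)]
      exact sum_congr rfl fun e _ => by
        unfold dz
        rw [tsum_mul_left]
    rw [e1]
    have e2 := dz_term (fun v k => bD_le n l hl hD c z hρ hz i i le_rfl v k) v hs.le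
    have e3 : Summable (fun k : ℕ => ∑ e ∈ range (2 * i + 1), rk n l (2 * i - e) * (z e v (k + 1) * term v k s)) :=
      summable_sum fun e _ => (dz_term (fun v k => hz e v (k + 1)) v hs.le).mul_left _
    unfold dz
    rw [← Summable.tsum_add e2 e3]
    refine tsum_congr fun k => ?_
    unfold bV bD
    rw [sum_mul, sum_mul, ← sum_add_distrib]
    exact sum_congr rfl fun e _ => by ring
  have h2 : ∑' v : HeightOneSpectrum (𝓞 K), dz (bV n l c z i) s v = ∑' v : HeightOneSpectrum (𝓞 K), dz (bD n l c z i) s v +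
      ∑ j ∈ range (i + 1), (((Rk n l).coeff j : ℕ) : ℝ) * ∑' v : HeightOneSpectrum (𝓞 K), dz (z (2 * (i - j))) s v := by
    rw [← reindex n l (fun e => ∑' v : HeightOneSpectrum (𝓞 K), dz (z e) s v) i]
    have h3 : ∑ e ∈ range (2 * i + 1), rk n l (2 * i - e) * ∑' v : HeightOneSpectrum (𝓞 K), dz (z e) s v =
        ∑' v : HeightOneSpectrum (𝓞 K), ∑ e ∈ range (2 * i + 1), rk n l (2 * i - e) * dz (z e) s v := by
      rw [Summable.tsum_finsetSum (fun e _ => (hsz e).mul_left _)]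
      exact sum_congr rfl fun e _ => tsum_mul_left.symm
    rw [h3, ← Summable.tsum_add hsD (summable_sum fun e _ => (hsz e).mul_left _)]
    exact tsum_congr h1
  rw [h2, Real.exp_add, Real.exp_sum]
  congr 1
  exact prod_congr rfl fun j _ => Real.exp_nat_mul _ _

end

open Classical in
/-- **the poles of the L-functions of the products with arbitrary varieties** -/
theorem polesZ (K : Type) [Field K] [NumberField K] (b g l N D : ℕ) (ω : Fin g → 𝓞 K) (hω : (1 : 𝓞 K) ∈ Submodule.span ℤ (Set.range ω))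
    (hl : l.Prime) (hζ : ∃ ζ : K, IsPrimitiveRoot ζ l) (hD : Nat.Coprime D l) (hb : 2 ≤ b) (hd : 1 ≤ N * D * g)
    (n : Fin N → ℕ) (hn : ∀ c, n c ≤ D) (ε : ℝ) (hε : 0 < ε) (ρ : ℝ) (hρ : 0 < ρ) (A B I : ℕ) :
    ∃ M : ℝ, 0 < M ∧ ∃ y₀ : ℕ, ∀ (L r : Fin (N * D * g) → ℕ) (y : ℕ), (∀ i, 2 * r i ≤ L i) → y₀ ≤ y →
    ∀ N' : Fin (N * D * g) → ℕ, (∀ i, N' i < b ^ L i) →
    ∀ f : Fin (N * D * g) → ℕ → ℕ, (∀ i j, f i j < b ∧ f i j ≠ digit b j (N' i)) →
    ∀ Z : Set (ℕ → HeightOneSpectrum (𝓞 K) → ℕ → ℝ), Z.Finite → Z.ncard ≤ y ^ B → (∀ z ∈ Z, ∀ e v k, |z e v k| ≤ ρ) →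
    ∀ E : (Fin (N * D * g) → ℕ) → Prop,
    (∀ m : Fin (N * D * g) → ℕ, (∀ i ≤ I, ∀ z ∈ Z, ∃ Λ : ℝ, 0 < Λ ∧ ∀ s : ℝ, 1 < s → (∀ j, M ≤ (s - 1) * r j) → M * ((s - 1) * Real.log y) ≤ 1 →
      |Real.exp (∑' v : HeightOneSpectrum (𝓞 K), dz (bV n l (cf (D := N * D) ω m) z i) s v) -
        Λ * ∏ j ∈ range (i + 1), Real.exp (∑' v : HeightOneSpectrum (𝓞 K), dz (z (2 * (i - j))) s v) ^ (Rk n l).coeff j| ≤
        ε * (Λ * ∏ j ∈ range (i + 1), Real.exp (∑' v : HeightOneSpectrum (𝓞 K), dz (z (2 * (i - j))) s v) ^ (Rk n l).coeff j)) → E m) →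
    (exceptions b L r N' f E : ℝ) ≤ 1 / (y : ℝ) ^ A * ∏ i, ((L i).choose (r i) : ℝ) := by
  obtain ⟨c, hc, C₁, hC₁, y₂, h⟩ := law_z K b g l N D ω hω hl hζ hD hb hd n hn (1 / 4) (by norm_num) A (B + 1) (2 * I)
  have hBI := BI_nonneg n l hl D I
  obtain ⟨C, hC0, htot⟩ := totalz K ((2 * I + 1) * (ρ * BI n l D I)) (by positivity) (β := 3 / 4) (by norm_num) (by norm_num)
  obtain ⟨C₃, hC₃⟩ : ∃ C₃ : ℝ, C₃ = (2 * I + 1) * (ρ * C₁) := ⟨_, rfl⟩
  have hC₃0 : 0 ≤ C₃ := by rw [hC₃]; positivity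
  obtain ⟨η, hη⟩ : ∃ η : ℝ, η = Real.log (1 + ε) := ⟨_, rfl⟩
  have hη0 : 0 < η := by
    rw [hη]
    exact Real.log_pos (by linarith)
  -- the size of y
  obtain ⟨y₁, hy₁⟩ : ∃ y₁ : ℕ, ∀ y : ℕ, y₁ ≤ y → C * (C₃ * (y : ℝ) ^ ((3 / 4 : ℝ) - 1)) ≤ η / 4 := by
    have h1 : Tendsto (fun y : ℕ => C * (C₃ * (y : ℝ) ^ ((3 / 4 : ℝ) - 1))) atTop (𝓝 (C * (C₃ * 0))) := by
      apply Tendsto.const_mul
      apply Tendsto.const_mul
      have h2 : (3 / 4 : ℝ) - 1 = -(1 / 4) := by norm_num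
      rw [h2]
      exact (tendsto_rpow_neg_atTop (by norm_num : (0 : ℝ) < 1 / 4)).comp tendsto_natCast_atTop_atTop
    rw [mul_zero, mul_zero] at h1
    have h2 := h1.eventually (ge_mem_nhds (by positivity : (0 : ℝ) < η / 4))
    exact eventually_atTop.1 h2
  -- the size of M
  obtain ⟨M, hM1, hM2, hM4, hM5, hM6⟩ : ∃ M : ℝ, 1 ≤ M ∧ 1 / c ≤ M ∧ 4 * C / η ≤ M ∧ 2 / c ≤ M ∧
      C * (2 * Real.exp (-(c * M - 1))) ≤ η / 4 := by
    have h1 : Tendsto (fun M : ℝ => C * (2 * Real.exp (-(c * M - 1)))) atTop (𝓝 (C * (2 * 0))) := by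
      apply Tendsto.const_mul
      apply Tendsto.const_mul
      apply Real.tendsto_exp_atBot.comp
      apply tendsto_neg_atTop_atBot.comp
      apply tendsto_atTop_add_const_right
      exact tendsto_id.const_mul_atTop hc
    rw [mul_zero, mul_zero] at h1
    have h2 := h1.eventually (ge_mem_nhds (by positivity : (0 : ℝ) < η / 4))
    obtain ⟨M, hM⟩ := ((((h2.and (eventually_ge_atTop 1)).and (eventually_ge_atTop (1 / c))).and
      (eventually_ge_atTop (4 * C / η))).and (eventually_ge_atTop (2 / c))).exists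
    exact ⟨M, hM.1.1.1.2, hM.1.1.2, hM.1.2, hM.2, hM.1.1.1.1⟩
  have hM0 : 0 < M := by linarith
  refine ⟨M, hM0, y₁ + y₂ + (2 * I + 1) + 3, fun L r y hrL hy N' hN' f hf Z hZ hZ2 hZ1 E hE => ?_⟩
  -- the weights
  obtain ⟨Ψ, hΨ⟩ : ∃ Ψ : Set (HeightOneSpectrum (𝓞 K) → ℝ), Ψ = (fun x : (ℕ → HeightOneSpectrum (𝓞 K) → ℕ → ℝ) × ℕ => fun v => x.1 x.2 v 1 / ρ) ''
    (Z ×ˢ (↑(range (2 * I + 1)) : Set ℕ)) := ⟨_, rfl⟩
  have hΨf : Ψ.Finite := by
    rw [hΨ]
    exact (hZ.prod (Finset.finite_toSet _)).image _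
  have hΨc : Ψ.ncard ≤ y ^ (B + 1) := by
    rw [hΨ]
    refine (Set.ncard_image_le (hZ.prod (Finset.finite_toSet _))).trans ?_
    rw [Set.ncard_prod, Set.ncard_coe_finset, card_range, pow_succ]
    exact Nat.mul_le_mul hZ2 (by omega)
  have hΨb : ∀ ψ ∈ Ψ, ∀ v, |ψ v| ≤ 1 := by
    intro ψ hψ v
    rw [hΨ] at hψ
    obtain ⟨x, hx, rfl⟩ := hψ
    show |x.1 x.2 v 1 / ρ| ≤ 1
    rw [abs_div, abs_of_pos hρ, div_le_one hρ]
    exact hZ1 x.1 hx.1 _ _ _
  refine h L r y hrL (by omega) N' hN' f hf Ψ hΨf hΨc hΨb E fun m hm => hE m fun i hi z hz => ?_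
  have hy0 : (0 : ℝ) < y := by exact_mod_cast (by omega : 0 < y)
  have hly : 1 ≤ Real.log y := by
    have h3 : (Real.exp 1) ≤ y := by
      have := Real.exp_one_lt_d9
      have h4 : (3 : ℝ) ≤ y := by exact_mod_cast (by omega : 3 ≤ y)
      linarith
    exact (Real.le_log_iff_exp_le hy0).2 h3
  -- the law for the differences
  have hlaw : ∀ x : ℕ, y ≤ x → (∀ i, (x : ℝ) ≤ Real.exp (c * r i)) →
      |∑ j ∈ range x, Eb (fun v => bD n l (cf (D := N * D) ω m) z i v 1) j| ≤ C₃ * (x : ℝ) ^ (3 / 4 : ℝ) := by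
    intro x hyx hxr
    have e1 : ∀ j, Eb (fun v => bD n l (cf (D := N * D) ω m) z i v 1) j = ∑ e ∈ range (2 * i + 1), ρ *
        Eb (fun v => (z e v 1 / ρ) * (To n l (2 * i - e) 1 v (cf (D := N * D) ω m) - rk n l (2 * i - e))) j := by
      intro j
      have e2 : (fun v => bD n l (cf (D := N * D) ω m) z i v 1) = fun v => ∑ e ∈ range (2 * i + 1),
          (fun e (v : HeightOneSpectrum (𝓞 K)) => z e v 1 * (To n l (2 * i - e) 1 v (cf (D := N * D) ω m) - rk n l (2 * i - e))) e v := rfl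
      rw [e2, Eb_sum]
      refine sum_congr rfl fun e _ => ?_
      have := tup_fin K j
      have hF : Fintype ((e : Fin 1) → (𝓞 K →+* ZMod (Nat.nth Nat.Prime (j + e)))) := Fintype.ofFinite _
      unfold Eb
      rw [finsum_eq_sum_of_fintype, finsum_eq_sum_of_fintype, mul_sum]
      refine sum_congr rfl fun φ _ => ?_
      field_simp
    simp only [e1]
    rw [sum_comm]
    refine (abs_sum_le_sum_abs _ _).trans ((sum_le_sum (g := fun _ => ρ * (C₁ * (x : ℝ) ^ (3 / 4 : ℝ))) fun e he => ?_).trans ?_)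
    · rw [← mul_sum, abs_mul, abs_of_pos hρ]
      apply mul_le_mul_of_nonneg_left _ hρ.le
      rw [Finset.mem_range] at he
      have h1 := hm x hyx hxr (2 * i - e) (by omega) (fun v => z e v 1 / ρ) (by
        rw [hΨ]
        exact ⟨(z, e), ⟨hz, by rw [Finset.coe_range, Set.mem_Iio]; show e < 2 * I + 1; omega⟩, rfl⟩)
      have h2 : (1 / 2 + 1 / 4 : ℝ) = 3 / 4 := by norm_num
      rw [h2] at h1
      exact h1
    · rw [sum_const, card_range, nsmul_eq_mul, hC₃]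
      have h1 : ((2 * i + 1 : ℕ) : ℝ) ≤ 2 * I + 1 := by exact_mod_cast (by omega : 2 * i + 1 ≤ 2 * I + 1)
      have h2 : 0 ≤ ρ * (C₁ * (x : ℝ) ^ (3 / 4 : ℝ)) := by positivity
      calc ((2 * i + 1 : ℕ) : ℝ) * (ρ * (C₁ * (x : ℝ) ^ (3 / 4 : ℝ))) ≤ (2 * I + 1) * (ρ * (C₁ * (x : ℝ) ^ (3 / 4 : ℝ))) := mul_le_mul_of_nonneg_right h1 h2
        _ = _ := by ring
  have hbB : ∀ v k, |bD n l (cf (D := N * D) ω m) z i v (k + 1)| ≤ (2 * I + 1) * (ρ * BI n l D I) :=
    fun v k => bD_le n l hl hD _ z hρ.le (hZ1 z hz) I i hi v k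
  -- the smallest number of changes
  have hne : (univ : Finset (Fin (N * D * g))).Nonempty := ⟨⟨0, by omega⟩, mem_univ _⟩
  obtain ⟨j₀, _, hj₀⟩ := exists_min_image univ r hne
  obtain ⟨x, hx⟩ : ∃ x : ℕ, x = ⌊Real.exp (c * r j₀)⌋₊ := ⟨_, rfl⟩
  have hxle : (x : ℝ) ≤ Real.exp (c * r j₀) := by
    rw [hx]
    exact Nat.floor_le (Real.exp_pos _).le
  have hxle' : ∀ j, (x : ℝ) ≤ Real.exp (c * r j) := by
    intro j
    refine hxle.trans (Real.exp_le_exp.2 (mul_le_mul_of_nonneg_left ?_ hc.le))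
    exact_mod_cast hj₀ j (mem_univ _)
  -- the admissible real numbers
  have adm : ∀ s : ℝ, 1 < s → (∀ j, M ≤ (s - 1) * r j) → M * ((s - 1) * Real.log y) ≤ 1 →
      s ≤ 2 ∧ y ≤ x ∧ c * M - 1 ≤ (s - 1) * Real.log x ∧ 1 ≤ (s - 1) * Real.log x := by
    intro s hs h1 h2
    have hs0 : 0 < s - 1 := by linarith
    have h3 : M * (s - 1) ≤ 1 := by
      have h4 : (s - 1) ≤ (s - 1) * Real.log y := le_mul_of_one_le_right hs0.le hly
      nlinarith
    have h4 : s - 1 ≤ 1 / M := by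
      rw [le_div_iff₀ hM0]
      linarith
    have h5 : 1 / M ≤ 1 := by
      rw [div_le_one hM0]
      exact hM1
    have h7 := h1 j₀
    have h8 : Real.log y ≤ c * r j₀ := by
      have a1 : Real.log y ≤ 1 / (M * (s - 1)) := by
        rw [le_div_iff₀ (by positivity)]
        linarith
      have a2 : 1 / (M * (s - 1)) ≤ r j₀ / (M * M) := by
        rw [div_le_div_iff₀ (by positivity) (by positivity)]
        have a3 : 1 * (M * M) ≤ M * ((s - 1) * r j₀) := by nlinarith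
        linarith
      have a3 : (r j₀ : ℝ) / (M * M) ≤ c * r j₀ := by
        rw [div_le_iff₀ (by positivity)]
        have a4 : 1 ≤ c * M := by
          rw [div_le_iff₀ hc] at hM2
          linarith
        have a5 : 1 ≤ c * (M * M) := by nlinarith
        have a6 : (0 : ℝ) ≤ r j₀ := Nat.cast_nonneg _
        nlinarith
      linarith
    have h9 : (y : ℝ) ≤ Real.exp (c * r j₀) := by
      rw [← Real.exp_log hy0]
      exact Real.exp_le_exp.2 h8
    have h10 : y ≤ x := by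
      rw [hx]
      exact Nat.le_floor h9
    have hx0 : (0 : ℝ) < x := by exact_mod_cast (by omega : 0 < x)
    have h11 : c * r j₀ - 1 ≤ Real.log x := by
      have b1 : Real.exp (c * r j₀) ≤ (x : ℝ) + 1 := by
        rw [hx]
        exact (Nat.lt_floor_add_one _).le
      have b2 : (x : ℝ) + 1 ≤ Real.exp 1 * x := by
        have b3 := Real.exp_one_gt_d9
        have b4 : (1 : ℝ) ≤ x := by exact_mod_cast (by omega : 1 ≤ x)
        nlinarith
      have b3 : c * r j₀ ≤ Real.log (Real.exp 1 * x) := (Real.le_log_iff_exp_le (by positivity)).2 (b1.trans b2)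
      rw [Real.log_mul (Real.exp_pos 1).ne' hx0.ne', Real.log_exp] at b3
      linarith
    have h12 : c * M - 1 ≤ (s - 1) * Real.log x := by
      have b1 : (s - 1) * (c * r j₀ - 1) ≤ (s - 1) * Real.log x := mul_le_mul_of_nonneg_left h11 hs0.le
      have b2 : c * M ≤ c * ((s - 1) * r j₀) := mul_le_mul_of_nonneg_left h7 hc.le
      nlinarith
    refine ⟨by linarith, h10, h12, ?_⟩
    have : 2 ≤ c * M := by
      rw [div_le_iff₀ hc] at hM5
      linarith
    linarith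
  by_cases hex : ∃ s₀ : ℝ, 1 < s₀ ∧ (∀ j, M ≤ (s₀ - 1) * r j) ∧ M * ((s₀ - 1) * Real.log y) ≤ 1
  · obtain ⟨s₀, hs₀, ha₀, hb₀⟩ := hex
    obtain ⟨g1, g3, g4, g5⟩ := adm s₀ hs₀ ha₀ hb₀
    refine ⟨Real.exp (∑' v : HeightOneSpectrum (𝓞 K), dz (bD n l (cf (D := N * D) ω m) z i) s₀ v), Real.exp_pos _, fun s hs ha hb' => ?_⟩
    obtain ⟨k1, _, k4, k5⟩ := adm s hs ha hb'
    rw [L_eq n l hl hD _ z hρ.le (hZ1 z hz) i hs]
    obtain ⟨P, hP⟩ : ∃ P : ℝ, P = ∏ j ∈ range (i + 1), Real.exp (∑' v : HeightOneSpectrum (𝓞 K), dz (z (2 * (i - j))) s v) ^ (Rk n l).coeff j := ⟨_, rfl⟩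
    have hP0 : 0 ≤ P := by
      rw [hP]
      exact prod_nonneg fun j _ => pow_nonneg (Real.exp_pos _).le _
    rw [← hP, ← sub_mul, abs_mul, abs_of_nonneg hP0, ← mul_assoc]
    apply mul_le_mul_of_nonneg_right _ hP0
    apply near_exp hη hε
    have hx0 : (0 : ℝ) < x := by exact_mod_cast (by omega : 0 < x)
    have t1 := htot (bD n l (cf (D := N * D) ω m) z i) hbB C₃ hC₃0 y x (by omega) g3 (fun u hyu hux =>
      hlaw u hyu (fun j => le_trans (by exact_mod_cast hux) (hxle' j))) s s₀ hs k1 hs₀ g1 k5 g5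
    have p1 : |s - s₀| * Real.log y ≤ 1 / M := by
      have q1 : (s - 1) * Real.log y ≤ 1 / M := by
        rw [le_div_iff₀ hM0]
        linarith
      have q2 : (s₀ - 1) * Real.log y ≤ 1 / M := by
        rw [le_div_iff₀ hM0]
        linarith
      have q3 : |s - s₀| ≤ max (s - 1) (s₀ - 1) := by
        rw [abs_le]
        have a1 := le_max_left (s - 1) (s₀ - 1)
        have a2 := le_max_right (s - 1) (s₀ - 1)
        constructor <;> linarith
      refine (mul_le_mul_of_nonneg_right q3 (by linarith)).trans ?_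
      rcases le_total (s - 1) (s₀ - 1) with h' | h'
      · rw [max_eq_right h']
        exact q2
      · rw [max_eq_left h']
        exact q1
    have p2 : ∀ s : ℝ, c * M - 1 ≤ (s - 1) * Real.log x → (x : ℝ) ^ (1 - s) ≤ Real.exp (-(c * M - 1)) := by
      intro s hs
      rw [Real.rpow_def_of_pos hx0]
      apply Real.exp_le_exp.2
      linarith
    have p3 := p2 s k4
    have p4 := p2 s₀ g4
    refine t1.trans ?_
    have q4 : C * (|s - s₀| * Real.log y) ≤ η / 4 := by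
      have r1 : C * (|s - s₀| * Real.log y) ≤ C * (1 / M) := mul_le_mul_of_nonneg_left p1 hC0
      have r2 : C * (1 / M) ≤ η / 4 := by
        rw [mul_one_div, div_le_iff₀ hM0]
        rw [div_le_iff₀ hη0] at hM4
        linarith
      linarith
    have q5 := hy₁ y (by omega)
    have q6 : C * ((x : ℝ) ^ (1 - s) + (x : ℝ) ^ (1 - s₀)) ≤ η / 4 := by
      refine le_trans (mul_le_mul_of_nonneg_left ?_ hC0) hM6
      linarith
    rw [mul_add, mul_add]
    linarith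
  · refine ⟨1, one_pos, fun s hs ha hb' => ?_⟩
    exact absurd ⟨s, hs, ha, hb'⟩ hex

end Pool.Agent.N842.TR
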