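import Pool.Agent.N842.TQ.Od

/-!
# The sums of the traces with weights on the prime ideals of degree one
-/

set_option autoImplicit false

namespace Pool.Agent.N842.TR

open Finset NumberField IsDedekindDomain
open Pool.Agent.N842.SQ
open Pool.Agent.N842.TP
open Pool.Agent.N842.TQ
open Pool.Agent.N842.ST (kap kap_nonneg kap_le)
open Pool.Agent.N842.HS (hv VT mem_VT res_char prime_above norm_card absNorm_hv hom_finite hom_card cf sum_deg1 factNth genRW pr_mono)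
open Pool.Agent.TH894.NF (pr pr_prime)
open Pool.Agent.Y57.FD (digit exceptions)

attribute [local instance] rsFin exFin

section
variable {N : ℕ} (n : Fin N → ℕ)

/-- the main values of the traces -/
noncomputable def rk (l d : ℕ) : ℝ := if Even d then (((Rk n l).coeff (d / 2) : ℕ) : ℝ) else 0

lemma rk_eq (l : ℕ) (hl : l.Prime) (d p : ℕ) (hκ : kap p l 1 = (l : ℝ) - 1) : ∑ θ ∈ Im n, cfm n d θ * MG l N θ p = rk n l d := by
  unfold rk
  split_ifs with h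
  · obtain ⟨i, hi⟩ := h
    have hi2 : d = 2 * i := by omega
    have hd2 : d / 2 = i := by omega
    rw [hd2, ← rank_eq n l hl.one_lt.le i, hi2]
    refine sum_congr rfl fun θ _ => ?_
    unfold MG
    rw [hκ]
  · apply sum_eq_zero
    intro θ _
    by_cases h0 : cfm n d θ = 0
    · rw [h0, zero_mul]
    · rw [MG_odd l θ (fun he => h ((cfm_parity n d θ h0).1 he)), mul_zero]

/-- a bound for the main values -/
noncomputable def BM (l d : ℕ) : ℝ := ∑ θ ∈ Im n, |cfm n d θ| * ∏ c, nm (l : ℝ) l (θ c)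

lemma BM_nonneg (l d : ℕ) : 0 ≤ BM n l d :=
  sum_nonneg fun θ _ => mul_nonneg (abs_nonneg _) (prod_nonneg fun c _ => nm_nonneg _ _ (Nat.cast_nonneg _) (Nat.cast_nonneg _) _)

lemma rk_abs (l : ℕ) (hl : l.Prime) (d : ℕ) : |rk n l d| ≤ BM n l d := by
  unfold rk
  split_ifs with h
  · obtain ⟨i, hi⟩ := h
    have hi2 : d = 2 * i := by omega
    have hd2 : d / 2 = i := by omega
    rw [hd2, ← rank_eq n l hl.one_lt.le i, hi2]
    unfold BM
    refine (abs_sum_le_sum_abs _ _).trans (sum_le_sum fun θ _ => ?_)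
    rw [abs_mul]
    apply mul_le_mul_of_nonneg_left _ (abs_nonneg _)
    have hl1 : (1 : ℝ) ≤ l := by exact_mod_cast hl.one_lt.le
    rw [abs_prod]
    exact prod_le_prod (fun c _ => abs_nonneg _) fun c _ => nm_abs _ (by linarith) _ (by linarith) _
  · rw [abs_zero]
    exact BM_nonneg n l d

lemma MGs_abs (l : ℕ) (hl : l.Prime) (d p : ℕ) : |∑ θ ∈ Im n, cfm n d θ * MG l N θ p| ≤ BM n l d := by
  unfold BM
  refine (abs_sum_le_sum_abs _ _).trans (sum_le_sum fun θ _ => ?_)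
  rw [abs_mul]
  exact mul_le_mul_of_nonneg_left (MG_le l hl N θ p) (abs_nonneg _)

end

section
variable {K : Type} [Field K] [NumberField K]

/-- the sums over the prime ideals of degree one above the prime number with the number `j` -/
noncomputable def Eb (b : HeightOneSpectrum (𝓞 K) → ℝ) (j : ℕ) : ℝ :=
  ∑ᶠ φ : (e : Fin 1) → (𝓞 K →+* ZMod (Nat.nth Nat.Prime (j + e))), b (hv (φ 0))

lemma Eb_le {nK : ℕ} (hnK : ∀ (p : ℕ) [Fact p.Prime], Nat.card (𝓞 K →+* ZMod p) ≤ nK) {b : HeightOneSpectrum (𝓞 K) → ℝ} {B : ℝ} (hB : 0 ≤ B)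
    (hb : ∀ v, |b v| ≤ B) (j : ℕ) : |Eb b j| ≤ nK * B := by
  have := tup_fin K j
  have : Fintype ((e : Fin 1) → (𝓞 K →+* ZMod (Nat.nth Nat.Prime (j + e)))) := Fintype.ofFinite _
  unfold Eb
  rw [finsum_eq_sum_of_fintype]
  refine (abs_sum_le_sum_abs _ _).trans ((sum_le_sum fun φ _ => hb _).trans ?_)
  rw [sum_const, card_univ, nsmul_eq_mul, ← Nat.card_eq_fintype_card]
  exact mul_le_mul_of_nonneg_right (by exact_mod_cast tup_card K nK hnK j) hB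

lemma Eb_sum {ι : Type} (s : Finset ι) (b : ι → HeightOneSpectrum (𝓞 K) → ℝ) (j : ℕ) :
    Eb (fun v => ∑ i ∈ s, b i v) j = ∑ i ∈ s, Eb (b i) j := by
  have := tup_fin K j
  have : Fintype ((e : Fin 1) → (𝓞 K →+* ZMod (Nat.nth Nat.Prime (j + e)))) := Fintype.ofFinite _
  unfold Eb
  simp only [finsum_eq_sum_of_fintype]
  exact sum_comm

variable {N : ℕ} (n : Fin N → ℕ)

/-- the local functions with weights -/
lemma Eb_law (l : ℕ) (hl : l.Prime) (hζ : ∃ ζ : K, IsPrimitiveRoot ζ l) {g D : ℕ} (ω : Fin g → 𝓞 K) (d : ℕ) (m : Fin (N * D * g) → ℕ)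
    (ψ : HeightOneSpectrum (𝓞 K) → ℝ) (j : ℕ) (hj : pr j ≠ l) :
    Eb (fun v => ψ v * (To n l d 1 v (cf (D := N * D) ω m) - rk n l d)) j = ∑ θ ∈ Im n, cfm n d θ *
      ∑ᶠ φ : (e : Fin 1) → (𝓞 K →+* ZMod (Nat.nth Nat.Prime (j + e))), ψ (hv (φ 0)) *
        (GG l N D θ (Nat.nth Nat.Prime (j + (0 : Fin 1))) (fun j => φ 0 (cf ω m j)) - MG l N θ (Nat.nth Nat.Prime (j + (0 : Fin 1)))) := by
  have := tup_fin K j
  have : Fintype ((e : Fin 1) → (𝓞 K →+* ZMod (Nat.nth Nat.Prime (j + e)))) := Fintype.ofFinite _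
  unfold Eb
  simp only [finsum_eq_sum_of_fintype, mul_sum]
  rw [sum_comm]
  refine sum_congr rfl fun φ _ => ?_
  have h1 : l ∣ Nat.nth Nat.Prime (j + ((0 : Fin 1) : ℕ)) - 1 := zeta_hom hl hζ _ hj (φ 0)
  have h2 : kap (Nat.nth Nat.Prime (j + ((0 : Fin 1) : ℕ))) l 1 = (l : ℝ) - 1 := by
    unfold kap
    rw [pow_one, if_pos h1]
  rw [To_hv, ← rk_eq n l hl d _ h2, ← sum_sub_distrib, mul_sum]
  exact sum_congr rfl fun θ _ => by ring

open Classical in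
/-- **the sums of the traces with weights for almost all products** -/
theorem law_z (K : Type) [Field K] [NumberField K] (b g l N D : ℕ) (ω : Fin g → 𝓞 K) (hω : (1 : 𝓞 K) ∈ Submodule.span ℤ (Set.range ω))
    (hl : l.Prime) (hζ : ∃ ζ : K, IsPrimitiveRoot ζ l) (hD : Nat.Coprime D l) (hb : 2 ≤ b) (hd : 1 ≤ N * D * g)
    (n : Fin N → ℕ) (hn : ∀ c, n c ≤ D) (δ : ℝ) (hδ : 0 < δ) (A B I : ℕ) :
    ∃ c : ℝ, 0 < c ∧ ∃ C₁ : ℝ, 0 ≤ C₁ ∧ ∃ y₀ : ℕ, ∀ (L r : Fin (N * D * g) → ℕ) (y : ℕ), (∀ i, 2 * r i ≤ L i) → y₀ ≤ y →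
    ∀ N' : Fin (N * D * g) → ℕ, (∀ i, N' i < b ^ L i) →
    ∀ f : Fin (N * D * g) → ℕ → ℕ, (∀ i j, f i j < b ∧ f i j ≠ digit b j (N' i)) →
    ∀ Ψ : Set (HeightOneSpectrum (𝓞 K) → ℝ), Ψ.Finite → Ψ.ncard ≤ y ^ B → (∀ ψ ∈ Ψ, ∀ v, |ψ v| ≤ 1) →
    ∀ E : (Fin (N * D * g) → ℕ) → Prop,
    (∀ m : Fin (N * D * g) → ℕ, (∀ x : ℕ, y ≤ x → (∀ i, (x : ℝ) ≤ Real.exp (c * r i)) → ∀ d ≤ I, ∀ ψ ∈ Ψ,
      |∑ j ∈ range x, Eb (fun v => ψ v * (To n l d 1 v (cf (D := N * D) ω m) - rk n l d)) j| ≤ C₁ * (x : ℝ) ^ (1 / 2 + δ)) → E m) →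
    (exceptions b L r N' f E : ℝ) ≤ 1 / (y : ℝ) ^ A * ∏ i, ((L i).choose (r i) : ℝ) := by
  obtain ⟨nK, hnK⟩ := hom_card (𝓞 K)
  have hbt : ∀ θ : Fin N → ℕ, 0 ≤ ∏ c, B0 l D ^ θ c + ∏ c, nm (l : ℝ) l (θ c) := fun θ =>
    add_nonneg (by have := B0_ge l hl D; positivity) (prod_nonneg fun c _ => nm_nonneg _ _ (Nat.cast_nonneg _) (Nat.cast_nonneg _) _)
  have hB := B0_ge l hl D
  obtain ⟨S, hS⟩ : ∃ S : ℝ, S = ∑ d ∈ range (I + 1), ((∑ θ ∈ Im n, |cfm n d θ|) + (BD n l D d + BM n l d)) := ⟨_, rfl⟩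
  have hS1 : ∀ d, 0 ≤ (∑ θ ∈ Im n, |cfm n d θ|) + (BD n l D d + BM n l d) := fun d =>
    add_nonneg (sum_nonneg fun θ _ => abs_nonneg _) (add_nonneg (BD_nonneg n l hl D d) (BM_nonneg n l d))
  have hS0 : 0 ≤ S := by
    rw [hS]
    exact sum_nonneg fun d _ => hS1 d
  have hSd : ∀ d ≤ I, (∑ θ ∈ Im n, |cfm n d θ|) ≤ S ∧ BD n l D d + BM n l d ≤ S := by
    intro d hd
    have h1 : (∑ θ ∈ Im n, |cfm n d θ|) + (BD n l D d + BM n l d) ≤ S := by
      rw [hS]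
      exact single_le_sum (f := fun d => (∑ θ ∈ Im n, |cfm n d θ|) + (BD n l D d + BM n l d)) (fun d _ => hS1 d) (mem_range.2 (by omega))
    have h2 := BD_nonneg n l hl D d
    have h4 := BM_nonneg n l d
    have h3 : 0 ≤ ∑ θ ∈ Im n, |cfm n d θ| := sum_nonneg fun θ _ => abs_nonneg _
    constructor <;> linarith
  obtain ⟨c, hc, y₀, h⟩ := genRW (R := 𝓞 K) b g (N * D) 1 ω hω hb hd le_rfl δ hδ A B (Im n)
    (fun θ p _ u => GG l N D θ p u) (fun θ p => MG l N θ p) 0 le_rfl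
    (fun θ _ => ⟨∏ c, B0 l D ^ θ c + ∏ c, nm l l (θ c), hbt θ, fun p hp => by
      rw [Real.rpow_zero, mul_one]
      constructor
      · intro u
        have h1 := GG_le l hl N D hD θ p u
        have h2 : 0 ≤ ∏ c, nm (l : ℝ) l (θ c) := prod_nonneg fun c _ => nm_nonneg _ _ (Nat.cast_nonneg _) (Nat.cast_nonneg _) _
        linarith
      · have h1 := MG_le l hl N θ p
        have h2 : 0 ≤ ∏ c : Fin N, B0 l D ^ θ c := by positivity
        linarith⟩)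
    (fun θ hθ => mean_all l hl N D hD θ (fun c => ((mem_Im n θ).1 hθ c).trans (hn c)))
  refine ⟨c, hc, S * Real.sqrt (nK + 1) + 2 * (nK * S), by positivity, y₀ + 2, fun L r y hrL hy N' hN' f hf Ψ hΨ hΨ2 hΨ1 E hE => ?_⟩
  obtain ⟨W, hW⟩ : ∃ W : ℕ → Set ((k : ℕ) → ((e : Fin 1) → (𝓞 K →+* ZMod (Nat.nth Nat.Prime (k + e)))) → ℝ),
      W = fun x => if y ≤ x then (fun ψ : HeightOneSpectrum (𝓞 K) → ℝ => fun k φ => ψ (hv (φ 0))) '' Ψ else ∅ := ⟨_, rfl⟩
  have hWc : ∀ x, (W x).Finite ∧ (W x).ncard ≤ x ^ B := by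
    intro x
    rw [hW]
    beta_reduce
    split_ifs with h
    · exact ⟨hΨ.image _, (Set.ncard_image_le hΨ).trans (hΨ2.trans (Nat.pow_le_pow_left h B))⟩
    · exact ⟨Set.finite_empty, by rw [Set.ncard_empty]; exact Nat.zero_le _⟩
  have hW1 : ∀ x, ∀ w ∈ W x, ∀ k φ, |w k φ| ≤ 1 := by
    intro x w hw k φ
    rw [hW] at hw
    beta_reduce at hw
    split_ifs at hw with h
    · obtain ⟨ψ, hψ, rfl⟩ := hw
      exact hΨ1 ψ hψ _
    · exact absurd hw (Set.notMem_empty _)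
  refine h L r y hrL (by omega) N' hN' f hf W hWc hW1 E fun m hm =>
    hE m fun x hyx hxr d hdI ψ hψ => ?_
  have hx2 : 2 ≤ x := by omega
  have hx0 : (0 : ℝ) < x := by exact_mod_cast (by omega : 0 < x)
  have hx1' : (1 : ℝ) ≤ x := by exact_mod_cast (by omega : 1 ≤ x)
  obtain ⟨hSd1, hSd2⟩ := hSd d hdI
  have hWm : (fun (k : ℕ) (φ : (e : Fin 1) → (𝓞 K →+* ZMod (Nat.nth Nat.Prime (k + e)))) => ψ (hv (φ 0))) ∈ W x := by
    rw [hW]
    beta_reduce
    rw [if_pos hyx]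
    exact ⟨ψ, hψ, rfl⟩
  -- the law for every exponent
  obtain ⟨G, hG⟩ : ∃ G : ℕ → ℝ, G = fun j => ∑ θ ∈ Im n, cfm n d θ *
      ∑ᶠ φ : (e : Fin 1) → (𝓞 K →+* ZMod (Nat.nth Nat.Prime (j + e))), ψ (hv (φ 0)) *
        (GG l N D θ (Nat.nth Nat.Prime (j + (0 : Fin 1))) (fun j => φ 0 (cf ω m j)) - MG l N θ (Nat.nth Nat.Prime (j + (0 : Fin 1)))) := ⟨_, rfl⟩
  have hGE : ∀ j, pr j ≠ l → Eb (fun v => ψ v * (To n l d 1 v (cf (D := N * D) ω m) - rk n l d)) j = G j := by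
    intro j hj
    rw [hG]
    exact Eb_law n l hl hζ ω d m ψ j hj
  have hGle : ∀ j, |G j| ≤ nK * S := by
    intro j
    have := tup_fin K j
    have hF : Fintype ((e : Fin 1) → (𝓞 K →+* ZMod (Nat.nth Nat.Prime (j + e)))) := Fintype.ofFinite _
    have e1 : G j = ∑ φ : (e : Fin 1) → (𝓞 K →+* ZMod (Nat.nth Nat.Prime (j + e))), ψ (hv (φ 0)) *
        (To n l d 1 (hv (φ 0)) (cf (D := N * D) ω m) - ∑ θ ∈ Im n, cfm n d θ * MG l N θ (Nat.nth Nat.Prime (j + (0 : Fin 1)))) := by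
      rw [hG]
      simp only [finsum_eq_sum_of_fintype, mul_sum]
      rw [sum_comm]
      refine sum_congr rfl fun φ _ => ?_
      rw [To_hv, ← sum_sub_distrib, mul_sum]
      exact sum_congr rfl fun θ _ => by ring
    rw [e1]
    refine (abs_sum_le_sum_abs _ _).trans ((sum_le_sum (g := fun _ => S) fun φ _ => ?_).trans ?_)
    · rw [abs_mul]
      have h1 : |To n l d 1 (hv (φ 0)) (cf (D := N * D) ω m) - ∑ θ ∈ Im n, cfm n d θ * MG l N θ (Nat.nth Nat.Prime (j + (0 : Fin 1)))| ≤ S := by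
        refine (abs_sub _ _).trans ((add_le_add (To_le n l hl hD d 1 one_ne_zero _ _) (MGs_abs n l hl d _)).trans hSd2)
      calc |ψ (hv (φ 0))| * |To n l d 1 (hv (φ 0)) (cf (D := N * D) ω m) - ∑ θ ∈ Im n, cfm n d θ * MG l N θ (Nat.nth Nat.Prime (j + (0 : Fin 1)))| ≤
          1 * S := mul_le_mul (hΨ1 ψ hψ _) h1 (abs_nonneg _) zero_le_one
        _ = S := one_mul _
    · rw [sum_const, card_univ, nsmul_eq_mul, ← Nat.card_eq_fintype_card]
      exact mul_le_mul_of_nonneg_right (by exact_mod_cast tup_card K nK hnK j) hS0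
  have hEle : ∀ j, |Eb (fun v => ψ v * (To n l d 1 v (cf (D := N * D) ω m) - rk n l d)) j| ≤ nK * S := by
    intro j
    apply Eb_le hnK hS0
    intro v
    rw [abs_mul]
    have h1 : |To n l d 1 v (cf (D := N * D) ω m) - rk n l d| ≤ S :=
      (abs_sub _ _).trans ((add_le_add (To_le n l hl hD d 1 one_ne_zero _ _) (rk_abs n l hl d)).trans hSd2)
    calc |ψ v| * |To n l d 1 v (cf (D := N * D) ω m) - rk n l d| ≤ 1 * S := mul_le_mul (hΨ1 ψ hψ _) h1 (abs_nonneg _) zero_le_one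
      _ = S := one_mul _
  have key : ∀ θ ∈ Im n, |∑ k ∈ range x, ∑ᶠ φ : (e : Fin 1) → (𝓞 K →+* ZMod (Nat.nth Nat.Prime (k + e))), ψ (hv (φ 0)) *
        (GG l N D θ (Nat.nth Nat.Prime (k + (0 : Fin 1))) (fun j => φ 0 (cf ω m j)) - MG l N θ (Nat.nth Nat.Prime (k + (0 : Fin 1))))| ≤
      Real.sqrt (nK + 1) * (x : ℝ) ^ (1 / 2 + δ) := by
    intro θ hθ
    have h1 := hm x hyx hxr _ hWm (fun _ => θ) (fun _ => hθ)
    simp only [Fin.prod_univ_one] at h1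
    have h2 : Real.sqrt (max 1 (∑ k ∈ range x, ∑ᶠ φ : (e : Fin 1) → (𝓞 K →+* ZMod (Nat.nth Nat.Prime (k + e))), ψ (hv (φ 0)) ^ 2)) ≤
        Real.sqrt ((nK + 1) * x) := by
      apply Real.sqrt_le_sqrt
      apply max_le
      · have : (0 : ℝ) ≤ nK := Nat.cast_nonneg _
        nlinarith
      · have h3 : ∀ k ∈ range x, ∑ᶠ φ : (e : Fin 1) → (𝓞 K →+* ZMod (Nat.nth Nat.Prime (k + e))), ψ (hv (φ 0)) ^ 2 ≤ nK := by
          intro k _
          have := tup_fin K k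
          have hF : Fintype ((e : Fin 1) → (𝓞 K →+* ZMod (Nat.nth Nat.Prime (k + e)))) := Fintype.ofFinite _
          rw [finsum_eq_sum_of_fintype]
          have h4 : ∀ φ ∈ (univ : Finset ((e : Fin 1) → (𝓞 K →+* ZMod (Nat.nth Nat.Prime (k + e))))), ψ (hv (φ 0)) ^ 2 ≤ 1 := by
            intro φ _
            rw [← sq_abs]
            exact pow_le_one₀ (abs_nonneg _) (hΨ1 ψ hψ _)
          refine (sum_le_sum h4).trans ?_
          rw [sum_const, card_univ, nsmul_eq_mul, mul_one, ← Nat.card_eq_fintype_card]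
          exact_mod_cast tup_card K nK hnK k
        refine (sum_le_sum h3).trans ?_
        rw [sum_const, card_range, nsmul_eq_mul]
        nlinarith
    have h3 : Real.sqrt ((nK + 1) * x) * (x : ℝ) ^ (((1 : ℕ) : ℝ) * 0 + δ) = Real.sqrt (nK + 1) * (x : ℝ) ^ (1 / 2 + δ) := by
      rw [Real.sqrt_mul (by positivity), Nat.cast_one, one_mul, zero_add, mul_assoc, Real.sqrt_eq_rpow (x : ℝ), ← Real.rpow_add hx0]
    rw [← h3]
    exact h1.trans (mul_le_mul_of_nonneg_right h2 (by positivity))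
  have hmain : |∑ j ∈ range x, G j| ≤ S * (Real.sqrt (nK + 1) * (x : ℝ) ^ (1 / 2 + δ)) := by
    have hZ0 : 0 ≤ Real.sqrt (nK + 1) * (x : ℝ) ^ (1 / 2 + δ) := by positivity
    refine le_trans ?_ (mul_le_mul_of_nonneg_right hSd1 hZ0)
    have e1 : ∑ j ∈ range x, G j = ∑ θ ∈ Im n, cfm n d θ * ∑ k ∈ range x, ∑ᶠ φ : (e : Fin 1) → (𝓞 K →+* ZMod (Nat.nth Nat.Prime (k + e))), ψ (hv (φ 0)) *
        (GG l N D θ (Nat.nth Nat.Prime (k + (0 : Fin 1))) (fun j => φ 0 (cf ω m j)) - MG l N θ (Nat.nth Nat.Prime (k + (0 : Fin 1)))) := by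
      rw [hG, sum_comm]
      exact sum_congr rfl fun θ _ => (mul_sum _ _ _).symm
    rw [e1, sum_mul]
    refine (abs_sum_le_sum_abs _ _).trans (sum_le_sum fun θ hθ => ?_)
    rw [abs_mul]
    exact mul_le_mul_of_nonneg_left (key θ hθ) (abs_nonneg _)
  have hdiff : |∑ j ∈ range x, (Eb (fun v => ψ v * (To n l d 1 v (cf (D := N * D) ω m) - rk n l d)) j - G j)| ≤ 2 * (nK * S) := by
    refine (abs_sum_le_sum_abs _ _).trans ?_
    have h1 : ∀ j ∈ range x, |Eb (fun v => ψ v * (To n l d 1 v (cf (D := N * D) ω m) - rk n l d)) j - G j| ≤ if pr j = l then 2 * (nK * S) else 0 := by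
      intro j _
      by_cases hj : pr j = l
      · rw [if_pos hj]
        have a1 := hGle j
        have a2 := hEle j
        have a3 := abs_sub (Eb (fun v => ψ v * (To n l d 1 v (cf (D := N * D) ω m) - rk n l d)) j) (G j)
        linarith
      · rw [if_neg hj, hGE j hj, sub_self, abs_zero]
    refine (sum_le_sum h1).trans ?_
    rw [← sum_filter, sum_const, nsmul_eq_mul]
    have h2 : ((range x).filter (fun j => pr j = l)).card ≤ 1 := by
      rw [card_le_one]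
      intro a ha a' ha'
      rw [Finset.mem_filter] at ha ha'
      exact pr_mono.injective (ha.2.trans ha'.2.symm)
    have h3 : (((range x).filter (fun j => pr j = l)).card : ℝ) ≤ 1 := by exact_mod_cast h2
    have h4 : 0 ≤ 2 * ((nK : ℝ) * S) := by positivity
    nlinarith
  have hsplit : ∑ j ∈ range x, Eb (fun v => ψ v * (To n l d 1 v (cf (D := N * D) ω m) - rk n l d)) j = ∑ j ∈ range x, G j +
      ∑ j ∈ range x, (Eb (fun v => ψ v * (To n l d 1 v (cf (D := N * D) ω m) - rk n l d)) j - G j) := by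
    rw [← sum_add_distrib]
    exact sum_congr rfl fun j _ => by ring
  have hx1δ : 1 ≤ (x : ℝ) ^ (1 / 2 + δ) := Real.one_le_rpow hx1' (by positivity)
  rw [hsplit]
  refine (abs_add_le _ _).trans ((add_le_add hmain hdiff).trans ?_)
  have h6 : 2 * ((nK : ℝ) * S) ≤ 2 * (nK * S) * (x : ℝ) ^ (1 / 2 + δ) := le_mul_of_one_le_right (by positivity) hx1δ
  calc S * (Real.sqrt (nK + 1) * (x : ℝ) ^ (1 / 2 + δ)) + 2 * (nK * S) ≤
      S * (Real.sqrt (nK + 1) * (x : ℝ) ^ (1 / 2 + δ)) + 2 * (nK * S) * (x : ℝ) ^ (1 / 2 + δ) := by linarith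
    _ = _ := by ring

end

end Pool.Agent.N842.TR
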